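import Pool.Agent.Helper10.CR.Goals1

/-!
# Project CR, packet CR-LT: nested diamonds or a filter without large elements
-/

universe u

namespace Pool.Agent.Helper65.CR

open Pool.Agent.Helper10.Width Pool.Agent.Helper72.Width Pool.Agent.Helper78.SD
open Pool.Agent.Helper10.CR

/-- the part of a scheme above a node -/
theorem scheme_shift {L : Type u} [Lattice L] {φ ψ : List Bool → L} (h : Scheme φ ψ)
    (s : List Bool) : Scheme (fun t => φ (t ++ s)) (fun t => ψ (t ++ s)) :=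
  ⟨fun t => h.lt (t ++ s), fun i t => h.phi_le i (t ++ s), fun i t => h.psi_le i (t ++ s),
    fun i t => h.cap i (t ++ s)⟩

theorem goalLT : GoalLT.{u} := by
  intro hQ hC hD L _ _ _ hS
  obtain ⟨Q, instQ, instM, f, hsurj, hinf, hsup, hle⟩ := hQ hC L
  have hmono : ∀ x y : L, x ≤ y → f x ≤ f y := by
    intro x y hxy
    have h1 : f (x ⊓ y) = f x ⊓ f y := hinf x y
    rw [inf_eq_left.2 hxy] at h1
    rw [h1]
    exact inf_le_right
  have hF1 : ∀ b a : L, b ≤ a → ¬ f a ≤ f b → SchemeIn b a := by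
    intro b a hba h
    by_contra hn
    apply h
    rw [hle a b, inf_eq_right.2 hba]
    exact hn
  have hF2 : ∀ φ ψ : List Bool → L, Scheme φ ψ → ∀ s, f (ψ s) < f (φ s) := by
    intro φ ψ h s
    refine lt_of_le_not_ge (hmono _ _ (h.lt s).le) ?_
    rw [hle (φ s) (ψ s), inf_eq_right.2 (h.lt s).le, not_not]
    exact ⟨_, _, scheme_shift h s, le_refl _, le_refl _⟩
  obtain ⟨φ₀, ψ₀, h₀⟩ := hS
  by_cases hcase : ∃ b a : L, b ≤ a ∧ ¬ f a ≤ f b ∧ IsDistributiveInterval (f b) (f a)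
  · -- Case 1
    right
    obtain ⟨b, a, hba, hab, hdist⟩ := hcase
    have hba' : f b ≤ f a := hmono b a hba
    have hW : IsWide (Set.Icc (f b) (f a)) := by
      refine ⟨⟨f a, ⟨hba', le_refl _⟩, f b, ⟨le_refl _, hba'⟩, lt_of_le_not_ge hba' hab⟩, ?_⟩
      intro α hα β hβ hβα
      obtain ⟨x, hx⟩ := hsurj α
      obtain ⟨y', hy'⟩ := hsurj β
      have hy : f (x ⊓ y') = β := by
        rw [hinf, hx, hy']
        exact inf_eq_right.2 hβα.le
      have hne : ¬ f x ≤ f (x ⊓ y') := by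
        rw [hx, hy]
        exact not_le_of_gt hβα
      obtain ⟨φ, ψ, hφψ, h1, h2⟩ := hF1 (x ⊓ y') x inf_le_left hne
      have hlo : ∀ i, β ≤ f (ψ [i]) := by
        intro i
        rw [← hy]
        exact hmono _ _ (le_trans h1 (hφψ.psi_le i []))
      have hhi : ∀ i, f (φ [i]) ≤ α := by
        intro i
        rw [← hx]
        exact hmono _ _ (le_trans (hφψ.phi_le i []) h2)
      have hlt : ∀ i, f (ψ [i]) < f (φ [i]) := fun i => hF2 φ ψ hφψ [i]
      have hcap : ∀ i, f (φ [false]) ⊓ f (φ [true]) ≤ f (ψ [i]) := by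
        intro i
        rw [← hinf]
        exact hmono _ _ (hφψ.cap i [])
      have hn1 : ¬ f (φ [false]) ≤ f (φ [true]) := by
        intro h
        exact absurd (lt_of_le_of_lt (le_trans (le_inf (le_refl _) h) (hcap false)) (hlt false))
          (lt_irrefl _)
      have hn2 : ¬ f (φ [true]) ≤ f (φ [false]) := by
        intro h
        exact absurd (lt_of_le_of_lt (le_trans (le_inf h (le_refl _)) (hcap true)) (hlt true))
          (lt_irrefl _)
      have hβψ : ∀ i, f (ψ [i]) ∈ Set.Icc (f b) (f a) := fun i =>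
        ⟨le_trans hβ.1 (hlo i), le_trans (hlt i).le (le_trans (hhi i) hα.2)⟩
      have hφm : ∀ i, f (φ [i]) ∈ Set.Icc (f b) (f a) := fun i =>
        ⟨le_trans (hβψ i).1 (hlt i).le, le_trans (hhi i) hα.2⟩
      have hsm : f (φ [false]) ⊔ f (φ [true]) ∈ Set.Icc (f b) (f a) :=
        ⟨le_trans (hφm false).1 le_sup_left, sup_le (hφm false).2 (hφm true).2⟩
      refine ⟨f (φ [false]), hφm false, f (φ [true]), hφm true, hn1, hn2,
        lt_of_le_of_lt (hlo false) (hlt false), lt_of_le_of_ne (hhi false) ?_,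
        lt_of_le_of_lt (hlo true) (hlt true), lt_of_le_of_ne (hhi true) ?_,
        ⟨⟨_, hsm, ?_, le_refl _⟩, ⟨_, hβψ false, hlt false, hcap false⟩⟩,
        ⟨⟨_, hsm, ?_, ?_⟩, ⟨_, hβψ true, hlt true, ?_⟩⟩⟩
      · intro h
        exact hn2 (le_trans (hhi true) h.ge)
      · intro h
        exact hn1 (le_trans (hhi false) h.ge)
      · refine lt_of_le_not_ge le_sup_left ?_
        intro h
        exact hn2 (le_trans le_sup_right h)
      · refine lt_of_le_not_ge le_sup_right ?_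
        intro h
        exact hn1 (le_trans le_sup_left h)
      · rw [sup_comm]
      · rw [inf_comm]
        exact hcap true
    let _ : OrderBot Q :=
      { bot := f ⊥
        bot_le := by
          intro x
          obtain ⟨y, rfl⟩ := hsurj x
          exact hmono _ _ bot_le }
    obtain ⟨p, hup, hinf', hne, hproper, hsplit⟩ :=
      exists_filter_of_distributes hW (distributes_of_interval (le_refl _) hdist)
    refine ⟨{x | f x ∈ p}, ⟨?_, ?_, ?_⟩, ?_, ?_⟩
    · obtain ⟨X, hX⟩ := hne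
      obtain ⟨x, rfl⟩ := hsurj X
      exact ⟨x, hX⟩
    · intro x y hx hxy
      exact hup _ hx _ (hmono _ _ hxy)
    · intro x y hx hy
      show f (x ⊓ y) ∈ p
      rw [hinf]
      exact hinf' _ hx _ hy
    · obtain ⟨X, hX⟩ := hproper
      obtain ⟨x, rfl⟩ := hsurj X
      exact ⟨x, hX⟩
    · intro x hx
      obtain ⟨Y, Z, hY, hZ, hxY, hxZ, hσ⟩ := hsplit (f x) hx
      obtain ⟨y, rfl⟩ := hsurj Y
      obtain ⟨z, rfl⟩ := hsurj Z
      have hy : f (x ⊔ y) = f y := by rw [hsup]; exact sup_eq_right.2 hxY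
      have hz : f (x ⊔ z) = f z := by rw [hsup]; exact sup_eq_right.2 hxZ
      refine ⟨x ⊔ y, x ⊔ z, le_sup_left, le_sup_left, ?_, ?_, ?_⟩
      · show f (x ⊔ y) ∉ p
        rw [hy]; exact hY
      · show f (x ⊔ z) ∉ p
        rw [hz]; exact hZ
      · intro σ hσp
        show f ((σ ⊓ (x ⊔ y)) ⊔ (σ ⊓ (x ⊔ z))) ∈ p
        rw [hsup, hinf, hinf, hy, hz]
        exact hσ _ hσp
  · -- Case 2
    left
    have STEP : ∀ b a : L, b ≤ a → ¬ f a ≤ f b → ∃ d : L × L × L × L × L,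
        IsDiamond d.1 d.2.1 d.2.2.1 d.2.2.2.1 d.2.2.2.2 ∧ b ≤ d.1 ∧ d.2.2.2.2 ≤ a ∧
        ¬ f d.2.1 ≤ f d.1 := by
      intro b a hba hab
      have h1 : ¬ IsDistributiveInterval (f b) (f a) := fun h => hcase ⟨b, a, hba, hab, h⟩
      unfold IsDistributiveInterval at h1
      push Not at h1
      obtain ⟨X, hX, Y, hY, Z, hZ, hne⟩ := h1
      have hlift : ∀ X ∈ Set.Icc (f b) (f a), ∃ x : L, f x = X ∧ b ≤ x ∧ x ≤ a := by
        intro X hX
        obtain ⟨x, hx⟩ := hsurj X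
        refine ⟨(x ⊔ b) ⊓ a, ?_, le_inf le_sup_right hba, inf_le_right⟩
        rw [hinf, hsup, hx, sup_eq_left.2 hX.1, inf_eq_left.2 hX.2]
      obtain ⟨x, rfl, hbx, hxa⟩ := hlift X hX
      obtain ⟨y, rfl, hby, hya⟩ := hlift Y hY
      obtain ⟨z, rfl, hbz, hza⟩ := hlift Z hZ
      have hnle : ¬ f x ⊓ (f y ⊔ f z) ≤ (f x ⊓ f y) ⊔ (f x ⊓ f z) := fun h =>
        hne (le_antisymm h le_inf_sup)
      have hnleL : ¬ x ⊓ (y ⊔ z) ≤ (x ⊓ y) ⊔ (x ⊓ z) := by
        intro h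
        apply hnle
        have h2 := hmono _ _ h
        rw [hinf, hsup, hsup, hinf, hinf] at h2
        exact h2
      have hdL := hD L x y z hnleL
      have hdQ := hD Q (f x) (f y) (f z) hnle
      refine ⟨⟨_, _, _, _, _⟩, hdL, ?_, ?_, ?_⟩
      · exact le_trans (le_inf hbx hby) (le_trans le_sup_left le_sup_left)
      · exact le_trans inf_le_left (le_trans inf_le_left (sup_le hxa hya))
      · simp only [hinf, hsup]
        exact not_le_of_gt hdQ.lt
    have hstart : ¬ f (φ₀ []) ≤ f (ψ₀ []) := not_le_of_gt (hF2 φ₀ ψ₀ h₀ [])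
    obtain ⟨d₀, hd₀, -, -, hn₀⟩ := STEP (ψ₀ []) (φ₀ []) (h₀.lt []).le hstart
    let T := {d : L × L × L × L × L // IsDiamond d.1 d.2.1 d.2.2.1 d.2.2.2.1 d.2.2.2.2 ∧
      ¬ f d.2.1 ≤ f d.1}
    have hg : ∀ t : T, ∃ t' : T, t.1.1 ≤ t'.1.1 ∧ t'.1.2.2.2.2 ≤ t.1.2.1 := by
      intro t
      obtain ⟨d, h1, h2, h3, h4⟩ := STEP t.1.1 t.1.2.1 t.2.1.lt.le t.2.2
      exact ⟨⟨d, h1, h4⟩, h2, h3⟩
    choose g hg1 hg2 using hg
    let t₀ : T := ⟨d₀, hd₀, hn₀⟩
    refine ⟨fun n => (g^[n] t₀).1.1, fun n => (g^[n] t₀).1.2.1, fun n => (g^[n] t₀).1.2.2.1,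
      fun n => (g^[n] t₀).1.2.2.2.1, fun n => (g^[n] t₀).1.2.2.2.2, fun n => ?_⟩
    refine ⟨(g^[n] t₀).2.1, ?_, ?_⟩
    · show (g^[n] t₀).1.1 ≤ (g^[n + 1] t₀).1.1
      rw [Function.iterate_succ_apply']
      exact hg1 _
    · show (g^[n + 1] t₀).1.2.2.2.2 ≤ (g^[n] t₀).1.2.1
      rw [Function.iterate_succ_apply']
      exact hg2 _

end Pool.Agent.Helper65.CR
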